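import Mathlib

set_option autoImplicit false

open Set Filter Topology
open scoped Pointwise

namespace Pool.Agent.Results.MP_ab9b99_an.SelfSimilarLKD

/-- Euclidean space of dimension `d`. -/
abbrev E (d : ℕ) : Type := EuclideanSpace ℝ (Fin d)

/-- The unit cube `[0,1]^d`. -/
def cube (d : ℕ) : Set (E d) := {x | ∀ i, x i ∈ Icc (0 : ℝ) 1}

/-- The `ℓ`-fold sumset of `K`. -/
def sumset {d : ℕ} (ℓ : ℕ) (K : Set (E d)) : Set (E d) :=
  {y | ∃ x : Fin ℓ → E d, (∀ i, x i ∈ K) ∧ y = ∑ i, x i}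

/-- `(ℓ,k,d)`-sets: compact subsets of the cube which meet every `k`-dimensional affine subspace
meeting the cube and whose `ℓ`-fold sumset is nowhere dense. -/
structure IsLKD (ℓ k d : ℕ) (K : Set (E d)) : Prop where
  compact : IsCompact K
  subset_cube : K ⊆ cube d
  meets : ∀ H : AffineSubspace ℝ (E d), Module.finrank ℝ H.direction = k →
    ((H : Set (E d)) ∩ cube d).Nonempty → ((H : Set (E d)) ∩ K).Nonempty
  nowhereDense : IsNowhereDense (sumset ℓ K)

/-- Self-similar sets: nonempty compact sets which are the union of their images under finitely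
many contracting similarities. -/
def IsSelfSimilar {d : ℕ} (K : Set (E d)) : Prop :=
  K.Nonempty ∧ IsCompact K ∧ ∃ (m : ℕ) (f : Fin m → E d → E d) (r : Fin m → ℝ),
    (∀ i, 0 < r i ∧ r i < 1) ∧ (∀ i x y, dist (f i x) (f i y) = r i * dist x y) ∧
    K = ⋃ i, f i '' K

variable {d : ℕ}

theorem norm_le_of_abs_le {x : E d} {c : ℝ} (hc : 0 ≤ c) (h : ∀ i, |x i| ≤ c) : ‖x‖ ≤ d * c := by
  rw [EuclideanSpace.norm_eq]
  apply Real.sqrt_le_iff.2 ⟨by positivity, ?_⟩
  have h1 : ∑ i : Fin d, ‖x i‖ ^ 2 ≤ ∑ _i : Fin d, c ^ 2 := by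
    apply Finset.sum_le_sum
    intro i _
    rw [Real.norm_eq_abs]
    exact pow_le_pow_left₀ (abs_nonneg _) (h i) 2
  refine h1.trans ?_
  rw [Finset.sum_const, Finset.card_univ, Fintype.card_fin, nsmul_eq_mul, mul_pow]
  have h2 : (d : ℝ) ≤ (d : ℝ) ^ 2 := by
    exact_mod_cast Nat.le_self_pow (by norm_num) d
  exact mul_le_mul_of_nonneg_right h2 (sq_nonneg c)

theorem isCompact_sumset {ℓ : ℕ} {K : Set (E d)} (hK : IsCompact K) :
    IsCompact (sumset ℓ K) := by
  have : sumset ℓ K = (fun x : Fin ℓ → E d => ∑ i, x i) '' (Set.pi univ fun _ => K) := by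
    ext y
    constructor
    · rintro ⟨x, hx, rfl⟩
      exact ⟨x, fun i _ => hx i, rfl⟩
    · rintro ⟨x, hx, rfl⟩
      exact ⟨x, fun i => hx i (mem_univ _), rfl⟩
  rw [this]
  exact (isCompact_univ_pi fun _ => hK).image (by fun_prop)

/-- The attractor of finitely many maps `x ↦ (x + v i) / N`. -/
theorem attractor {m : ℕ} (hm : 0 < m) {N : ℕ} (hN : 2 ≤ N) (v : Fin m → E d) :
    ∃ K : Set (E d), IsCompact K ∧ K.Nonempty ∧
      K = ⋃ i, (fun x => (1 / N : ℝ) • (x + v i)) '' K := by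
  have hN' : (2 : ℝ) ≤ N := by exact_mod_cast hN
  have hN0 : (0 : ℝ) < N := by linarith
  have : Nonempty (Fin m) := ⟨⟨0, hm⟩⟩
  set C : ℝ := ∑ i, ‖v i‖ with hC
  have hvC : ∀ i, ‖v i‖ ≤ C := fun i =>
    Finset.single_le_sum (f := fun i => ‖v i‖) (fun _ _ => norm_nonneg _) (Finset.mem_univ i)
  set f : ℕ → (ℕ → Fin m) → E d := fun j ω => (1 / N : ℝ) ^ (j + 1) • v (ω j) with hf
  have hbound : ∀ j ω, ‖f j ω‖ ≤ (1 / N : ℝ) ^ (j + 1) * C := by
    intro j ω
    simp only [hf]
    rw [norm_smul, Real.norm_of_nonneg (by positivity)]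
    exact mul_le_mul_of_nonneg_left (hvC _) (by positivity)
  have hsum : Summable (fun j : ℕ => (1 / N : ℝ) ^ (j + 1) * C) := by
    have h1 : (1 / N : ℝ) < 1 := by
      rw [div_lt_one hN0]; linarith
    have h2 : Summable (fun j : ℕ => (1 / N : ℝ) ^ j * ((1 / N : ℝ) * C)) :=
      (summable_geometric_of_lt_one (by positivity) h1).mul_right _
    refine h2.congr fun j => ?_
    ring
  set π : (ℕ → Fin m) → E d := fun ω => ∑' j, f j ω with hπ
  have hcont : Continuous π := by
    refine continuous_tsum (fun j => ?_) hsum hbound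
    simp only [hf]
    have h1 : Continuous (fun ω : ℕ → Fin m => ω j) := continuous_apply j
    have h2 : Continuous v := continuous_of_discreteTopology
    exact (h2.comp h1).const_smul ((1 / N : ℝ) ^ (j + 1))
  have hsummable : ∀ ω, Summable (fun j => f j ω) := fun ω =>
    Summable.of_norm_bounded hsum (fun j => hbound j ω)
  have hrec : ∀ ω, π ω = (1 / N : ℝ) • (π (fun j => ω (j + 1)) + v (ω 0)) := by
    intro ω
    simp only [hπ]
    rw [(hsummable ω).tsum_eq_zero_add, smul_add, add_comm]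
    congr 1
    · rw [← tsum_const_smul'']
      congr 1
      ext1 j
      simp only [hf]
      rw [smul_smul, pow_succ _ (j + 1), mul_comm]
    · simp [hf]
  refine ⟨range π, isCompact_range hcont, range_nonempty _, ?_⟩
  ext y
  simp only [mem_iUnion, mem_image, mem_range]
  constructor
  · rintro ⟨ω, rfl⟩
    exact ⟨ω 0, π (fun j => ω (j + 1)), ⟨_, rfl⟩, (hrec ω).symm⟩
  · rintro ⟨i, _, ⟨ω, rfl⟩, rfl⟩
    refine ⟨fun j => Nat.casesOn j i ω, ?_⟩
    rw [hrec]
    rfl

/-- integer vectors -/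
noncomputable def ivec (p : Fin d → ℤ) : E d := WithLp.toLp 2 (fun i => (p i : ℝ))

@[simp] theorem ivec_apply (p : Fin d → ℤ) (i : Fin d) : ivec p i = p i := rfl

theorem isClosed_range_ivec : IsClosed (range (ivec (d := d))) := by
  have h : range (ivec (d := d)) = ⋂ i, {x : E d | x i ∈ range ((↑) : ℤ → ℝ)} := by
    ext x
    simp only [mem_range, mem_iInter, mem_ofPred_eq]
    constructor
    · rintro ⟨p, rfl⟩ i
      exact ⟨p i, rfl⟩
    · intro hx
      choose p hp using hx
      refine ⟨p, ?_⟩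
      ext i
      exact hp i
  rw [h]
  apply isClosed_iInter
  intro i
  exact (Int.isClosedEmbedding_coe_real.isClosed_range).preimage (by fun_prop)

theorem countable_range_ivec : (range (ivec (d := d))).Countable := countable_range _

/-- A compact nowhere dense set has an integer-periodic hole. -/
theorem exists_hole {S : Set (E d)} (hS : IsCompact S) (hnd : IsNowhereDense S) :
    ∃ (z : E d) (δ : ℝ), 0 < δ ∧ ∀ y ∈ S, ∀ p : Fin d → ℤ, δ ≤ dist z (y + ivec p) := by
  have hclosed : ∀ p : Fin d → ℤ, IsClosed ((Homeomorph.addRight (ivec p)) '' S) := fun p =>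
    (Homeomorph.addRight (ivec p)).isClosed_image.2 hS.isClosed
  have hnd' : ∀ p : Fin d → ℤ, IsNowhereDense ((Homeomorph.addRight (ivec p)) '' S) := fun p =>
    (Homeomorph.addRight (ivec p)).isInducing.isNowhereDense_image hnd
  have hod : ∀ p : Fin d → ℤ, IsOpen ((Homeomorph.addRight (ivec p)) '' S)ᶜ ∧
      Dense ((Homeomorph.addRight (ivec p)) '' S)ᶜ := fun p =>
    isClosed_isNowhereDense_iff_compl.1 ⟨hclosed p, hnd' p⟩
  have hdense : Dense (⋂ p : Fin d → ℤ, ((Homeomorph.addRight (ivec p)) '' S)ᶜ) :=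
    dense_iInter_of_isOpen (fun p => (hod p).1) (fun p => (hod p).2)
  obtain ⟨z, hz⟩ := hdense.nonempty
  have hSL : IsClosed (S + range (ivec (d := d))) :=
    isClosed_range_ivec.add_left_of_isCompact hS
  have hzn : z ∉ S + range (ivec (d := d)) := by
    rintro ⟨y, hy, _, ⟨p, rfl⟩, rfl⟩
    exact (mem_iInter.1 hz p) ⟨y, hy, rfl⟩
  obtain ⟨δ, hδ, hball⟩ := Metric.isOpen_iff.1 hSL.isOpen_compl z hzn
  refine ⟨z, δ, hδ, fun y hy p => ?_⟩
  by_contra hlt
  push Not at hlt
  have h1 : y + ivec p ∈ Metric.ball z δ := by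
    rw [Metric.mem_ball, dist_comm]; exact hlt
  exact hball h1 ⟨y, hy, _, ⟨p, rfl⟩, rfl⟩

theorem exists_submodule {k : ℕ} (hk : k ≤ d) :
    ∃ W : Submodule ℝ (E d), Module.finrank ℝ W = k := by
  set v : Fin k → E d := fun i => EuclideanSpace.basisFun (Fin d) ℝ (Fin.castLE hk i) with hv
  have hli : LinearIndependent ℝ v :=
    (EuclideanSpace.basisFun (Fin d) ℝ).toBasis.linearIndependent.comp
      (Fin.castLE hk) (Fin.castLE_injective hk) |> fun h => by
        simpa [hv, Function.comp_def] using h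
  refine ⟨Submodule.span ℝ (range v), ?_⟩
  rw [finrank_span_eq_card hli, Fintype.card_fin]

/-- **Main theorem.** -/
theorem main {ℓ k d : ℕ} (hk : k ≤ d) {K : Set (E d)} (hK : IsLKD ℓ k d K) :
    ∃ K' : Set (E d), IsLKD ℓ k d K' ∧ IsSelfSimilar K' := by
  classical
  obtain ⟨hKc, hKs, hKm, hKn⟩ := hK
  -- `K` is nonempty
  have hKne : K.Nonempty := by
    obtain ⟨W, hW⟩ := exists_submodule hk
    have := hKm (AffineSubspace.mk' 0 W) (by rw [AffineSubspace.direction_mk']; exact hW)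
      ⟨0, AffineSubspace.self_mem_mk' _ _, fun i => by simp⟩
    exact this.mono inter_subset_right
  -- the hole
  obtain ⟨z, δ, hδ, hhole⟩ := exists_hole (isCompact_sumset (ℓ := ℓ) hKc) hKn
  -- the scale
  obtain ⟨M, hM⟩ := exists_nat_gt ((ℓ : ℝ) * d / δ)
  set N : ℕ := M + 2 with hNdef
  have hN2 : 2 ≤ N := by omega
  have hN2' : (2 : ℝ) ≤ N := by exact_mod_cast hN2
  have hN0 : (0 : ℝ) < N := by linarith
  have hNδ : (ℓ : ℝ) * (d * (1 / N)) < δ := by
    have h1 : (ℓ : ℝ) * d / δ < N := by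
      refine hM.trans_le ?_
      rw [hNdef]; push_cast; linarith
    rw [div_lt_iff₀ hδ] at h1
    have h2 : (ℓ : ℝ) * (d * (1 / N)) = ℓ * d / N := by ring
    rw [h2, div_lt_iff₀ hN0]
    linarith
  -- the digits
  set A : Finset (Fin d → Fin N) := Finset.univ.filter fun a =>
    ∃ x ∈ K, ∀ i, (a i : ℝ) ≤ N * x i ∧ N * x i ≤ a i + 1 with hA
  have hAmem : ∀ a ∈ A, ∃ x ∈ K, ∀ i, (a i : ℝ) ≤ N * x i ∧ N * x i ≤ a i + 1 := by
    intro a ha
    rw [hA, Finset.mem_filter] at ha
    exact ha.2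
  have hcover : ∀ x ∈ K, ∃ a ∈ A, ∀ i, (a i : ℝ) ≤ N * x i ∧ N * x i ≤ a i + 1 := by
    intro x hx
    have hex : ∀ i, ∃ a : Fin N, (a : ℝ) ≤ N * x i ∧ N * x i ≤ a + 1 := by
      intro i
      have hxi := hKs hx i
      rcases lt_or_eq_of_le hxi.2 with h1 | h1
      · have h0 : 0 ≤ N * x i := mul_nonneg hN0.le hxi.1
        refine ⟨⟨⌊N * x i⌋₊, ?_⟩, ?_, ?_⟩
        · rw [Nat.floor_lt h0]
          nlinarith
        · exact Nat.floor_le h0
        · exact (Nat.lt_floor_add_one _).le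
      · refine ⟨⟨N - 1, by omega⟩, ?_, ?_⟩
        · simp only
          rw [h1, Nat.cast_sub (by omega)]
          push_cast
          linarith
        · simp only
          rw [h1, Nat.cast_sub (by omega)]
          push_cast
          linarith
    choose a ha using hex
    refine ⟨a, ?_, ha⟩
    rw [hA, Finset.mem_filter]
    exact ⟨Finset.mem_univ _, x, hx, ha⟩
  have hApos : 0 < A.card := by
    obtain ⟨x, hx⟩ := hKne
    obtain ⟨a, ha, -⟩ := hcover x hx
    exact Finset.card_pos.2 ⟨a, ha⟩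
  set e : Fin A.card ≃ A := A.equivFin.symm with he
  set v : Fin A.card → E d := fun j => ivec (fun i => (((e j : Fin d → Fin N) i : ℕ) : ℤ)) with hv
  have hvi : ∀ j i, v j i = (((e j : Fin d → Fin N) i : ℕ) : ℝ) := by
    intro j i
    simp [hv]
  obtain ⟨K', hK'c, hK'ne, hK'eq⟩ := attractor hApos hN2 v
  have hmem : ∀ x ∈ K', ∃ j, ∃ y ∈ K', x = (1 / N : ℝ) • (y + v j) := by
    intro x hx
    rw [hK'eq] at hx
    obtain ⟨j, y, hy, rfl⟩ := mem_iUnion.1 hx
    exact ⟨j, y, hy, rfl⟩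
  have hmem' : ∀ j, ∀ y ∈ K', (1 / N : ℝ) • (y + v j) ∈ K' := by
    intro j y hy
    rw [hK'eq]
    exact mem_iUnion.2 ⟨j, y, hy, rfl⟩
  -- `K'` lies in the cube
  have hK'cube : K' ⊆ cube d := by
    intro x hx i
    have hci : ContinuousOn (fun x : E d => x i) K' := by fun_prop
    constructor
    · obtain ⟨y, hy, hymin⟩ := hK'c.exists_isMinOn hK'ne hci
      obtain ⟨j, y', hy', hyy⟩ := hmem y hy
      have h1 : y i ≤ y' i := hymin hy'
      have h2 : y i ≤ x i := hymin hx
      have h3 : y i = (y' i + v j i) / N := by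
        rw [hyy]; simp; ring
      have h4 : 0 ≤ v j i := by rw [hvi]; positivity
      have h5 : y i * N = y' i + v j i := by rw [h3]; field_simp
      nlinarith
    · obtain ⟨y, hy, hymax⟩ := hK'c.exists_isMaxOn hK'ne hci
      obtain ⟨j, y', hy', hyy⟩ := hmem y hy
      have h1 : y' i ≤ y i := hymax hy'
      have h2 : x i ≤ y i := hymax hx
      have h3 : y i = (y' i + v j i) / N := by
        rw [hyy]; simp; ring
      have h4 : v j i ≤ N - 1 := by
        rw [hvi]
        have : ((e j : Fin d → Fin N) i : ℕ) ≤ N - 1 := by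
          have := ((e j : Fin d → Fin N) i).2
          omega
        have h6 : (((e j : Fin d → Fin N) i : ℕ) : ℝ) ≤ ((N - 1 : ℕ) : ℝ) := by exact_mod_cast this
        rw [Nat.cast_sub (by omega), Nat.cast_one] at h6
        exact h6
      have h5 : y i * N = y' i + v j i := by rw [h3]; field_simp
      nlinarith
  -- `K'` is close to `K`
  have hclose : ∀ x' ∈ K', ∃ x ∈ K, ‖x - x'‖ ≤ d * (1 / N) := by
    intro x' hx'
    obtain ⟨j, y, hy, rfl⟩ := hmem x' hx'
    obtain ⟨x, hx, hxj⟩ := hAmem _ (e j).2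
    refine ⟨x, hx, norm_le_of_abs_le (by positivity) fun i => ?_⟩
    have hyi := hK'cube hy i
    have h1 := hxj i
    rw [← hvi] at h1
    have h2 : (x - (1 / N : ℝ) • (y + v j)) i = (N * x i - (y i + v j i)) / N := by
      simp
      field_simp
    rw [h2, abs_div, abs_of_pos hN0]
    apply div_le_div_of_nonneg_right _ hN0.le
    rw [abs_le]
    constructor <;> linarith [h1.1, h1.2, hyi.1, hyi.2]
  -- `z` is not in the sumset of `K'` modulo integer vectors
  have hz : ∀ y ∈ sumset ℓ K', ∀ p : Fin d → ℤ, z ≠ y + ivec p := by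
    rintro y ⟨x', hx', rfl⟩ p hzp
    choose! g hg1 hg2 using hclose
    have h1 := hhole (∑ i, g (x' i)) ⟨fun i => g (x' i), fun i => hg1 _ (hx' i), rfl⟩ p
    rw [dist_eq_norm, hzp] at h1
    have h2 : ∑ i, x' i + ivec p - (∑ i, g (x' i) + ivec p) = -∑ i, (g (x' i) - x' i) := by
      rw [Finset.sum_sub_distrib]; abel
    rw [h2, norm_neg] at h1
    have h3 : ‖∑ i, (g (x' i) - x' i)‖ ≤ ℓ * (d * (1 / N)) := by
      refine (norm_sum_le _ _).trans ?_
      refine (Finset.sum_le_sum fun i _ => hg2 _ (hx' i)).trans ?_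
      rw [Finset.sum_const, Finset.card_univ, Fintype.card_fin, nsmul_eq_mul]
    linarith
  -- zooming
  have hzoom : ∀ n : ℕ, ∀ x ∈ K', ∃ p : Fin d → ℤ, ∃ y ∈ K', ((N : ℝ) ^ n) • x = y + ivec p := by
    intro n
    induction n with
    | zero =>
      intro x hx
      refine ⟨0, x, hx, ?_⟩
      ext i
      simp
    | succ n ih =>
      intro x hx
      obtain ⟨p, y, hy, hxy⟩ := ih x hx
      obtain ⟨j, y', hy', rfl⟩ := hmem y hy
      refine ⟨fun i => N * p i + (((e j : Fin d → Fin N) i : ℕ) : ℤ), y', hy', ?_⟩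
      rw [pow_succ', mul_smul, hxy]
      ext i
      simp only [PiLp.smul_apply, PiLp.add_apply, ivec_apply, smul_eq_mul, hvi]
      push_cast
      field_simp
      ring
  have hzoomS : ∀ n : ℕ, ∀ x ∈ sumset ℓ K', ∃ p : Fin d → ℤ, ∃ y ∈ sumset ℓ K',
      ((N : ℝ) ^ n) • x = y + ivec p := by
    rintro n _ ⟨x, hx, rfl⟩
    have := fun i => hzoom n (x i) (hx i)
    choose p y hy hxy using this
    refine ⟨∑ i, p i, ∑ i, y i, ⟨y, hy, rfl⟩, ?_⟩
    rw [Finset.smul_sum]
    have h1 : ivec (∑ i, p i) = ∑ i, ivec (p i) := by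
      ext j
      simp
    rw [h1, ← Finset.sum_add_distrib]
    exact Finset.sum_congr rfl fun i _ => hxy i
  refine ⟨K', ⟨hK'c, hK'cube, ?_, ?_⟩, hK'ne, hK'c, A.card, fun j x => (1 / N : ℝ) • (x + v j),
    fun _ => 1 / N, fun _ => ⟨by positivity, ?_⟩, ?_, hK'eq⟩
  · -- planes
    have happrox : ∀ n : ℕ, ∀ H : AffineSubspace ℝ (E d), Module.finrank ℝ H.direction = k →
        ((H : Set (E d)) ∩ cube d).Nonempty →
        ∃ p ∈ K', ∃ q ∈ H, dist p q ≤ (1 / N : ℝ) ^ n * d := by
      intro n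
      induction n with
      | zero =>
        rintro H hH ⟨q, hq1, hq2⟩
        obtain ⟨p, hp⟩ := hK'ne
        refine ⟨p, hp, q, hq1, ?_⟩
        rw [dist_eq_norm, pow_zero, one_mul]
        have := norm_le_of_abs_le (x := p - q) (c := 1) zero_le_one fun i => by
          have h1 := hK'cube hp i
          have h2 := hq2 i
          rw [PiLp.sub_apply, abs_le]
          constructor <;> linarith [h1.1, h1.2, h2.1, h2.2]
        simpa using this
      | succ n ih =>
        rintro H hH hHc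
        obtain ⟨q, hqH, hqK⟩ := hKm H hH hHc
        obtain ⟨a, haA, ha⟩ := hcover q hqK
        set j : Fin A.card := e.symm ⟨a, haA⟩ with hj
        have hvj : ∀ i, v j i = ((a i : ℕ) : ℝ) := by
          intro i
          rw [hvi, hj, Equiv.apply_symm_apply]
        set H' : AffineSubspace ℝ (E d) :=
          AffineSubspace.mk' ((N : ℝ) • q - v j) H.direction with hH'
        have hH'k : Module.finrank ℝ H'.direction = k := by
          rw [hH', AffineSubspace.direction_mk']; exact hH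
        have hH'c : ((H' : Set (E d)) ∩ cube d).Nonempty := by
          refine ⟨(N : ℝ) • q - v j, AffineSubspace.self_mem_mk' _ _, fun i => ?_⟩
          have h1 := ha i
          simp only [PiLp.sub_apply, PiLp.smul_apply, smul_eq_mul, hvj, mem_Icc]
          constructor <;> linarith [h1.1, h1.2]
        obtain ⟨p', hp', q', hq', hpq⟩ := ih H' hH'k hH'c
        refine ⟨(1 / N : ℝ) • (p' + v j), hmem' j p' hp', (1 / N : ℝ) • (q' + v j), ?_, ?_⟩
        · have h1 : q' -ᵥ ((N : ℝ) • q - v j) ∈ H.direction := AffineSubspace.mem_mk'.1 hq'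
          have h2 : (1 / N : ℝ) • (q' + v j) -ᵥ q ∈ H.direction := by
            have h3 : (1 / N : ℝ) • (q' + v j) -ᵥ q =
                (1 / N : ℝ) • (q' -ᵥ ((N : ℝ) • q - v j)) := by
              simp only [vsub_eq_sub]
              have hNne : (N : ℝ) ≠ 0 := hN0.ne'
              rw [smul_sub, smul_sub, smul_smul, smul_add, one_div,
                inv_mul_cancel₀ hNne, one_smul]
              abel
            rw [h3]
            exact Submodule.smul_mem _ _ h1
          exact (AffineSubspace.vsub_right_mem_direction_iff_mem hqH _).1 h2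
        · rw [dist_eq_norm, ← smul_sub, add_sub_add_right_eq_sub, norm_smul,
            Real.norm_of_nonneg (by positivity), ← dist_eq_norm, pow_succ']
          calc (1 / N : ℝ) * dist p' q' ≤ 1 / N * ((1 / N : ℝ) ^ n * d) := by gcongr
            _ = 1 / N * (1 / N : ℝ) ^ n * d := by ring
    intro H hH hHc
    have hclosedH : IsClosed (H : Set (E d)) := H.closed_of_finiteDimensional
    by_contra hempty
    rw [not_nonempty_iff_eq_empty, ← disjoint_iff_inter_eq_empty] at hempty
    obtain ⟨r, hr, hdisj⟩ := (hempty.symm).exists_thickenings hK'c hclosedH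
    have h1N : (1 / N : ℝ) < 1 := by
      rw [div_lt_one hN0]; linarith
    obtain ⟨n, hn⟩ : ∃ n : ℕ, (1 / N : ℝ) ^ n * (d : ℝ) < r := by
      have ht : Tendsto (fun n : ℕ => (1 / N : ℝ) ^ n * (d : ℝ)) atTop (𝓝 (0 * d)) :=
        (tendsto_pow_atTop_nhds_zero_of_lt_one (by positivity) h1N).mul_const _
      rw [zero_mul] at ht
      exact ((tendsto_order.1 ht).2 r hr).exists
    obtain ⟨p, hp, q, hq, hpq⟩ := happrox n H hH hHc
    apply disjoint_left.1 hdisj (Metric.self_subset_thickening hr _ hp)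
    rw [Metric.mem_thickening_iff]
    exact ⟨q, hq, hpq.trans_lt hn⟩
  · -- nowhere dense
    rw [IsClosed.isNowhereDense_iff (isCompact_sumset hK'c).isClosed]
    rw [eq_empty_iff_forall_notMem]
    intro x hx
    obtain ⟨r, hr, hball⟩ := Metric.isOpen_iff.1 isOpen_interior x hx
    have h1N : (1 / N : ℝ) < 1 := by
      rw [div_lt_one hN0]; linarith
    obtain ⟨n, hn⟩ : ∃ n : ℕ, (d : ℝ) * (1 / N : ℝ) ^ n < r := by
      have ht : Tendsto (fun n : ℕ => (d : ℝ) * (1 / N : ℝ) ^ n) atTop (𝓝 (d * 0)) :=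
        (tendsto_pow_atTop_nhds_zero_of_lt_one (by positivity) h1N).const_mul _
      rw [mul_zero] at ht
      exact ((tendsto_order.1 ht).2 r hr).exists
    have hNn : (0 : ℝ) < (N : ℝ) ^ n := by positivity
    set p : Fin d → ℤ := fun i => ⌊(N : ℝ) ^ n * x i - z i⌋ with hp
    set y : E d := ((1 / N : ℝ) ^ n) • (z + ivec p) with hy
    have hyx : dist y x < r := by
      rw [dist_eq_norm]
      refine lt_of_le_of_lt (norm_le_of_abs_le (c := (1 / N : ℝ) ^ n) (by positivity)
        fun i => ?_) hn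
      have h2 : (y - x) i = (1 / N : ℝ) ^ n * (z i + p i - (N : ℝ) ^ n * x i) := by
        rw [hy]
        simp only [PiLp.sub_apply, PiLp.smul_apply, PiLp.add_apply, ivec_apply, smul_eq_mul]
        rw [one_div, inv_pow]
        field_simp
      rw [h2, abs_mul, abs_of_pos (by positivity : (0 : ℝ) < (1 / N : ℝ) ^ n)]
      have h3 := Int.floor_le ((N : ℝ) ^ n * x i - z i)
      have h4 := Int.lt_floor_add_one ((N : ℝ) ^ n * x i - z i)
      have h5 : |z i + p i - (N : ℝ) ^ n * x i| ≤ 1 := by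
        simp only [hp]
        rw [abs_le]
        constructor <;> linarith
      calc (1 / N : ℝ) ^ n * |z i + p i - (N : ℝ) ^ n * x i| ≤ (1 / N : ℝ) ^ n * 1 := by gcongr
        _ = (1 / N : ℝ) ^ n := mul_one _
    have hyS : y ∈ sumset ℓ K' := interior_subset (hball hyx)
    obtain ⟨p', y', hy', hyy'⟩ := hzoomS n y hyS
    have h6 : ((N : ℝ) ^ n) • y = z + ivec p := by
      rw [hy, smul_smul, ← mul_pow, mul_one_div_cancel hN0.ne', one_pow, one_smul]
    rw [h6] at hyy'
    apply hz y' hy' (p' - p)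
    have h7 : ivec (p' - p) = ivec p' - ivec p := by
      ext i
      simp
    rw [h7, ← add_sub_assoc, ← hyy']
    abel
  · rw [div_lt_one hN0]; linarith
  · intro i x y
    rw [dist_eq_norm, ← smul_sub, add_sub_add_right_eq_sub, norm_smul,
      Real.norm_of_nonneg (by positivity), ← dist_eq_norm]

/-- **Self-similar `(ℓ,k,d)`-sets.** For all positive integers `ℓ, k, d` with `k ≤ d`: if an
`(ℓ,k,d)`-set exists, then a self-similar `(ℓ,k,d)`-set exists. -/
theorem result (ℓ k d : ℕ) (_hℓ : 0 < ℓ) (_hk : 0 < k) (hkd : k ≤ d)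
    (h : ∃ K : Set (E d), IsLKD ℓ k d K) :
    ∃ K : Set (E d), IsLKD ℓ k d K ∧ IsSelfSimilar K := by
  obtain ⟨K, hK⟩ := h
  exact main hkd hK

end Pool.Agent.Results.MP_ab9b99_an.SelfSimilarLKD
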